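import Pool.Agent.Results.MP_61cfb3_pr.RetraceBeatsGeometric
import Pool.Agent.Y904.LSG.Low

/-!
# Bounds for the pure value of the search game on the line with imperfect detection

For every detection probability `p` in `(0, 1)`, every admitted trajectory has guaranteed cost at
least `2 (1 + √(1 - p))² / p`, which is at least `8 / p - 4 - 2 p`. So the pure value lies between
this number and `p / (2 - p) + 8 / p - p (1 - p) / 4`: the geometric trajectory is never minimax, but
its cost exceeds the pure value by at most a constant.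
-/

set_option autoImplicit false

open Set MeasureTheory Filter Topology
open scoped ENNReal NNReal

namespace Pool.Agent.Results.MP_61cfb3_pr.PureValueBounds

open Pool.Agent.Results.MP_61cfb3_pr.RetraceBeatsGeometric

/-- Lower bound for the guaranteed cost of any trajectory, for finitely many visits. -/
lemma low_K {p : ℝ} (hp0 : 0 < p) (hp1 : p < 1) {S : ℝ≥0 → ℝ} (hS : IsTrajectory S)
    (hfin : guaranteedCost p S ≠ ∞) (K : ℕ) :
    2 * (∑ i ∈ Finset.range K, √((1 - p) ^ i * p)) ^ 2 ≤ (guaranteedCost p S).toReal := by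
  have hP : ∀ i : ℕ, 0 < (1 - p) ^ i * p := fun i =>
    mul_pos (pow_pos (by linarith) i) hp0
  -- the visit times
  have hex : ∀ H : ℝ, ∃ t : ℕ → ℝ≥0, H ≠ 0 → IsVisitTimes S H t ∧
      ∑' i : ℕ, ENNReal.ofReal ((1 - p) ^ i * p) * (t i : ℝ≥0∞) ≤
        guaranteedCost p S * ENNReal.ofReal |H| := by
    intro H
    by_cases hH : H = 0
    · exact ⟨0, fun h => absurd hH h⟩
    have hH' : 0 < |H| := abs_pos.2 hH
    have h1 : expectedTime p S H / ENNReal.ofReal |H| ≤ guaranteedCost p S :=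
      le_iSup₂ (f := fun (H : ℝ) (_ : H ≠ 0) => expectedTime p S H / ENNReal.ofReal |H|) H hH
    have h2 : expectedTime p S H ≤ guaranteedCost p S * ENNReal.ofReal |H| := by
      rwa [ENNReal.div_le_iff (by simpa using hH) ENNReal.ofReal_ne_top] at h1
    have h3 : guaranteedCost p S * ENNReal.ofReal |H| < ∞ :=
      ENNReal.mul_lt_top hfin.lt_top ENNReal.ofReal_lt_top
    have hne : ∃ t : ℕ → ℝ≥0, IsVisitTimes S H t := by
      by_contra hcon
      push Not at hcon
      have h4 : expectedTime p S H = ∞ := by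
        unfold expectedTime
        rw [iInf₂_eq_top]
        intro t ht
        exact absurd ht (hcon t)
      rw [h4] at h2
      exact absurd h2 (not_le.2 h3)
    obtain ⟨t, ht⟩ := hne
    refine ⟨t, fun _ => ⟨ht, ?_⟩⟩
    refine le_trans ?_ h2
    unfold expectedTime
    refine le_iInf₂ fun s hs => ?_
    have hst : s = t := by
      funext i
      exact le_antisymm (enum_le hs.1 ht.1 (by rw [hs.2, ht.2]) i)
        (enum_le ht.1 hs.1 (by rw [hs.2, ht.2]) i)
    rw [hst]
  choose t ht using hex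
  -- the trajectory on the real line
  set S' : ℝ → ℝ := fun x => S x.toNNReal with hS'
  have hlip : ∀ x y : ℝ, |S' x - S' y| ≤ |x - y| := by
    intro x y
    refine (hS.2.2 _ _).trans ?_
    rw [Real.coe_toNNReal', Real.coe_toNNReal']
    exact abs_max_sub_max_le_abs x y 0
  refine Pool.Agent.Y904.LSG.low_fin hlip (by simp only [hS', Real.toNNReal_zero]; exact hS.2.1)
    (fun i => (1 - p) ^ i * p) K (fun i _ => hP i) _ ENNReal.toReal_nonneg
    (fun H i => (t H i : ℝ)) (fun H _ i _ => NNReal.coe_nonneg _) (fun H hH i j hij => ?_)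
    (fun H hH i _ => ?_) (fun H hH => ?_)
  · exact_mod_cast (ht H hH).1.1 hij
  · have h1 : t H i ∈ visitStarts S H := by
      rw [← (ht H hH).1.2]
      exact ⟨i, rfl⟩
    obtain ⟨C, ⟨s, hs, rfl⟩, hC⟩ := h1
    have h2 := connectedComponentIn_subset _ _ hC.1
    simp only [hS', Real.toNNReal_coe]
    exact h2
  · have h1 := (ht H hH).2
    have h2 : ∑ i ∈ Finset.range K, ENNReal.ofReal ((1 - p) ^ i * p) * (t H i : ℝ≥0∞) ≤
        guaranteedCost p S * ENNReal.ofReal |H| := (ENNReal.sum_le_tsum _).trans h1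
    have h3 := ENNReal.toReal_mono (ENNReal.mul_lt_top hfin.lt_top ENNReal.ofReal_lt_top).ne h2
    rw [ENNReal.toReal_mul, ENNReal.toReal_ofReal (abs_nonneg H), ENNReal.toReal_sum] at h3
    · refine le_of_eq_of_le ?_ h3
      refine Finset.sum_congr rfl fun i _ => ?_
      rw [ENNReal.toReal_mul, ENNReal.toReal_ofReal (hP i).le, ENNReal.coe_toReal]
    · intro i _
      exact ENNReal.mul_ne_top ENNReal.ofReal_ne_top ENNReal.coe_ne_top

/-- Lower bound for the guaranteed cost of any trajectory. -/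
theorem low {p : ℝ} (hp0 : 0 < p) (hp1 : p < 1) {S : ℝ≥0 → ℝ} (hS : IsTrajectory S) :
    ENNReal.ofReal (2 * (1 + √(1 - p)) ^ 2 / p) ≤ guaranteedCost p S := by
  by_cases hfin : guaranteedCost p S = ∞
  · rw [hfin]
    exact le_top
  rw [ENNReal.ofReal_le_iff_le_toReal hfin]
  set r : ℝ := √(1 - p) with hr
  have hr2 : r ^ 2 = 1 - p := Real.sq_sqrt (by linarith)
  have hr0 : 0 ≤ r := Real.sqrt_nonneg _
  have hr1 : r < 1 := by nlinarith
  have hterm : ∀ i : ℕ, √((1 - p) ^ i * p) = √p * r ^ i := by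
    intro i
    rw [← hr2, ← pow_mul, mul_comm 2 i, pow_mul, Real.sqrt_mul (by positivity),
      Real.sqrt_sq (by positivity)]
    ring
  have hsum : HasSum (fun i : ℕ => √((1 - p) ^ i * p)) (√p * (1 - r)⁻¹) := by
    simp only [hterm]
    exact (hasSum_geometric_of_lt_one hr0 hr1).mul_left _
  have hlim : Tendsto (fun K : ℕ => 2 * (∑ i ∈ Finset.range K, √((1 - p) ^ i * p)) ^ 2) atTop
      (𝓝 (2 * (√p * (1 - r)⁻¹) ^ 2)) :=
    (hsum.tendsto_sum_nat.pow 2).const_mul 2
  have h1 := le_of_tendsto' hlim (fun K => low_K hp0 hp1 hS hfin K)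
  refine le_of_eq_of_le ?_ h1
  have h2 : 1 - r ≠ 0 := by linarith
  have h3 : (√p) ^ 2 = p := Real.sq_sqrt hp0.le
  have h4 : p = (1 - r) * (1 + r) := by linear_combination hr2
  rw [mul_pow, h3]
  have h5 : (1 + r) ≠ 0 := by linarith
  rw [h4]
  field_simp

lemma root_bound {p : ℝ} (hp0 : 0 < p) (hp1 : p < 1) :
    8 / p - 4 - 2 * p ≤ 2 * (1 + √(1 - p)) ^ 2 / p := by
  have h1 : (√(1 - p)) ^ 2 = 1 - p := Real.sq_sqrt (by linarith)
  have h2 : 1 - p / 2 - p ^ 2 / 2 ≤ √(1 - p) := by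
    apply Real.le_sqrt_of_sq_le
    nlinarith [mul_pos hp0 hp0, mul_pos (mul_pos hp0 hp0) hp0,
      mul_pos (mul_pos hp0 hp0) (by linarith : 0 < 1 - p)]
  rw [le_div_iff₀ hp0]
  have h3 : (8 / p - 4 - 2 * p) * p = 8 - 4 * p - 2 * p ^ 2 := by
    field_simp
  rw [h3]
  nlinarith

/-- **Bounds for the pure value.** For every detection probability `p` in `(0, 1)`: some admitted
trajectory is strictly better than the geometric one, whose cost is `p / (2 - p) + 8 / p`; the pure
value is at most this number minus `p (1 - p) / 4` and at least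
`2 (1 + √(1 - p))² / p ≥ 8 / p - 4 - 2 p`; so the cost of the geometric trajectory exceeds the pure
value by at most `7`. -/
theorem result (p : ℝ) (hp0 : 0 < p) (hp1 : p < 1) :
    (∃ S : ℝ≥0 → ℝ, IsTrajectory S ∧ Admitted S ∧
      guaranteedCost p S < ENNReal.ofReal (p / (2 - p) + 8 / p)) ∧
    pureValue p ≤ ENNReal.ofReal (p / (2 - p) + 8 / p - p * (1 - p) / 4) ∧
    ENNReal.ofReal (2 * (1 + √(1 - p)) ^ 2 / p) ≤ pureValue p ∧
    8 / p - 4 - 2 * p ≤ 2 * (1 + √(1 - p)) ^ 2 / p ∧
    ENNReal.ofReal (p / (2 - p) + 8 / p) ≤ pureValue p + 7 := by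
  obtain ⟨⟨S, hS1, hS2, hS3, hS4⟩, _⟩ :=
    Pool.Agent.Results.MP_61cfb3_pr.RetraceBeatsGeometric.result p hp0 hp1
  have hlow : ENNReal.ofReal (2 * (1 + √(1 - p)) ^ 2 / p) ≤ pureValue p :=
    le_iInf₂ fun S hS => low hp0 hp1 hS.1
  have hr := root_bound hp0 hp1
  refine ⟨⟨S, hS1, hS2, hS4⟩, (iInf₂_le _ ⟨hS1, hS2⟩).trans hS3, hlow, hr, ?_⟩
  have h1 : p / (2 - p) ≤ 1 := by
    rw [div_le_one (by linarith)]
    linarith
  calc ENNReal.ofReal (p / (2 - p) + 8 / p)
      ≤ ENNReal.ofReal (2 * (1 + √(1 - p)) ^ 2 / p + 7) :=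
        ENNReal.ofReal_le_ofReal (by linarith)
    _ = ENNReal.ofReal (2 * (1 + √(1 - p)) ^ 2 / p) + 7 := by
        rw [ENNReal.ofReal_add (by positivity) (by norm_num), ENNReal.ofReal_ofNat]
    _ ≤ pureValue p + 7 := by gcongr

end Pool.Agent.Results.MP_61cfb3_pr.PureValueBounds
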